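import Pool.Agent.H49.RL.Radial

set_option autoImplicit false
open Filter Topology MeasureTheory

namespace Pool.Agent.H49.RL
open Pool.Agent.H24

/-- the parametrisation of the unit circle -/
noncomputable def cc (θ : ℝ) : Metric.sphere (0 : ℂ) 1 :=
  ⟨Complex.exp ((θ : ℂ) * Complex.I), by simp [Complex.norm_exp_ofReal_mul_I]⟩

lemma cc_lip : LipschitzWith 1 cc := by
  refine LipschitzWith.of_dist_le_mul fun x y => ?_
  rw [NNReal.coe_one, one_mul, Subtype.dist_eq, Complex.dist_eq, Real.dist_eq]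
  have h1 : Complex.exp ((x : ℂ) * Complex.I) - Complex.exp ((y : ℂ) * Complex.I) =
      Complex.exp ((y : ℂ) * Complex.I) * (Complex.exp (Complex.I * ((x - y : ℝ) : ℂ)) - 1) := by
    rw [mul_sub, mul_one, ← Complex.exp_add]
    congr 2
    push_cast
    ring
  show ‖Complex.exp ((x : ℂ) * Complex.I) - Complex.exp ((y : ℂ) * Complex.I)‖ ≤ |x - y|
  rw [h1, norm_mul, Complex.norm_exp_ofReal_mul_I, one_mul]
  exact (Real.norm_exp_I_mul_ofReal_sub_one_le).trans (le_of_eq (Real.norm_eq_abs _))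

lemma cc_surj (z : Metric.sphere (0 : ℂ) 1) : ∃ θ : ℝ, cc θ = z := by
  refine ⟨Complex.arg z, Subtype.ext ?_⟩
  have h : ‖(z : ℂ)‖ = 1 := by simpa using z.2
  show Complex.exp ((Complex.arg (z : ℂ) : ℂ) * Complex.I) = z
  have h2 := Complex.norm_mul_exp_arg_mul_I (z : ℂ)
  rwa [h, Complex.ofReal_one, one_mul] at h2

/-- a statement which holds for almost every angle holds for `H^1`-almost every point -/
lemma ae_haus {Q : Metric.sphere (0 : ℂ) 1 → Prop} (h : ∀ᵐ θ : ℝ, Q (cc θ)) :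
    ∀ᵐ z ∂(Measure.hausdorffMeasure 1 : Measure (Metric.sphere (0 : ℂ) 1)), Q z := by
  rw [ae_iff] at h ⊢
  have h1 : {z : Metric.sphere (0 : ℂ) 1 | ¬ Q z} ⊆ cc '' {θ : ℝ | ¬ Q (cc θ)} := by
    intro z hz
    obtain ⟨θ, rfl⟩ := cc_surj z
    exact ⟨θ, hz, rfl⟩
  refine measure_mono_null h1 (le_antisymm ?_ bot_le)
  refine (cc_lip.hausdorffMeasure_image_le zero_le_one _).trans ?_
  rw [MeasureTheory.hausdorffMeasure_real, h, mul_zero]

lemma cc_ee (θ : ℝ) : ((cc θ : Metric.sphere (0 : ℂ) 1) : ℂ) = ee (θ : TT) := (ee_coe θ).symm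

lemma mem_ee (x : TT) : ee x ∈ Metric.sphere (0 : ℂ) 1 := by simp

theorem main_sphere (p q : Metric.sphere (0 : ℂ) 1 → EReal) (hp : Measurable p) (hq : Measurable q) :
    ∃ a : ℕ → ℂ, (∀ n, ‖a n‖ ≤ 1) ∧ Tendsto a atTop (𝓝 0) ∧
      ∀ᵐ (z : Metric.sphere (0 : ℂ) 1) ∂(Measure.hausdorffMeasure 1 : Measure (Metric.sphere (0 : ℂ) 1)),
      Tendsto (fun r : ℝ => ((∑' n : ℕ, a n * ((r : ℂ) * z) ^ n).re : EReal)) (𝓝[<] 1) (𝓝 (p z)) ∧
      Tendsto (fun r : ℝ => ((∑' n : ℕ, a n * ((r : ℂ) * z) ^ n).im : EReal)) (𝓝[<] 1) (𝓝 (q z)) := by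
  classical
  let P : ℂ → EReal := fun w => if h : w ∈ Metric.sphere (0 : ℂ) 1 then p ⟨w, h⟩ else 0
  let Q : ℂ → EReal := fun w => if h : w ∈ Metric.sphere (0 : ℂ) 1 then q ⟨w, h⟩ else 0
  have hP : ∀ (w : ℂ) (h : w ∈ Metric.sphere (0 : ℂ) 1), P w = p ⟨w, h⟩ := fun w h => dif_pos h
  have hQ : ∀ (w : ℂ) (h : w ∈ Metric.sphere (0 : ℂ) 1), Q w = q ⟨w, h⟩ := fun w h => dif_pos h
  have hc : Continuous fun x : TT => (⟨ee x, mem_ee x⟩ : Metric.sphere (0 : ℂ) 1) :=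
    continuous_ee.subtype_mk _
  have m1 : Measurable fun x : TT => P (ee x) := by
    have : (fun x : TT => P (ee x)) = fun x => p ⟨ee x, mem_ee x⟩ := funext fun x => hP _ _
    rw [this]
    exact hp.comp hc.measurable
  have m2 : Measurable fun x : TT => Q (ee x) := by
    have : (fun x : TT => Q (ee x)) = fun x => q ⟨ee x, mem_ee x⟩ := funext fun x => hQ _ _
    rw [this]
    exact hq.comp hc.measurable
  obtain ⟨a, ha, ha0, h⟩ := main_pq P Q m1 m2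
  refine ⟨a, ha, ha0, ae_haus ?_⟩
  filter_upwards [ae_real_of_ae_circle h] with θ hθ
  rw [← cc_ee, hP _ (cc θ).2, hQ _ (cc θ).2] at hθ
  exact hθ

/-- real part to `+∞` and imaginary part to `0` -/
lemma top_reading {F : ℝ → ℂ} (h1 : Tendsto (fun r => (F r).re) (𝓝[<] 1) atTop)
    (h2 : Tendsto (fun r => (F r).im) (𝓝[<] 1) (𝓝 0)) :
    Tendsto (fun r => ‖F r‖) (𝓝[<] 1) atTop ∧
      Tendsto (fun r => F r / ((‖F r‖ : ℝ) : ℂ)) (𝓝[<] 1) (𝓝 1) := by
  have h3 : Tendsto (fun r => ‖F r‖) (𝓝[<] 1) atTop :=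
    tendsto_atTop_mono (fun r => (le_abs_self _).trans (Complex.abs_re_le_norm _)) h1
  refine ⟨h3, ?_⟩
  rw [tendsto_iff_norm_sub_tendsto_zero]
  have h4 : Tendsto (fun r => 2 * |(F r).im|) (𝓝[<] 1) (𝓝 0) := by
    have := h2.abs.const_mul 2
    simpa using this
  refine squeeze_zero' (Eventually.of_forall fun r => norm_nonneg _) ?_ h4
  filter_upwards [h1.eventually_ge_atTop 1] with r hr
  have h5 : 1 ≤ ‖F r‖ := hr.trans ((le_abs_self _).trans (Complex.abs_re_le_norm _))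
  have h6 : (F r).re ≤ ‖F r‖ := (le_abs_self _).trans (Complex.abs_re_le_norm _)
  have h7 : ‖F r‖ ≤ (F r).re + |(F r).im| := by
    have := Complex.norm_le_abs_re_add_abs_im (F r)
    rwa [abs_of_nonneg (by linarith : (0:ℝ) ≤ (F r).re)] at this
  have h8 : F r / ((‖F r‖ : ℝ) : ℂ) - 1 = (F r - ((‖F r‖ : ℝ) : ℂ)) / ((‖F r‖ : ℝ) : ℂ) := by
    have h0 : ‖F r‖ ≠ 0 := (lt_of_lt_of_le one_pos h5).ne'
    have : ((‖F r‖ : ℝ) : ℂ) ≠ 0 := Complex.ofReal_ne_zero.mpr h0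
    field_simp
  have h9 : ‖F r - ((‖F r‖ : ℝ) : ℂ)‖ ≤ 2 * |(F r).im| := by
    refine (Complex.norm_le_abs_re_add_abs_im _).trans ?_
    simp only [Complex.sub_re, Complex.ofReal_re, Complex.sub_im, Complex.ofReal_im, sub_zero]
    rw [abs_of_nonpos (by linarith : (F r).re - ‖F r‖ ≤ 0)]
    linarith
  rw [h8, norm_div, Complex.norm_real, Real.norm_of_nonneg (norm_nonneg _)]
  rw [div_le_iff₀ (by linarith)]
  have := abs_nonneg (F r).im
  nlinarith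

lemma reading {F : ℝ → ℂ} {t : EReal} (h1 : Tendsto (fun r => ((F r).re : EReal)) (𝓝[<] 1) (𝓝 t))
    (h2 : Tendsto (fun r => ((F r).im : EReal)) (𝓝[<] 1) (𝓝 0)) :
    (∀ x : ℝ, t = x → Tendsto F (𝓝[<] 1) (𝓝 (x : ℂ))) ∧
    (t = ⊤ → Tendsto (fun r => ‖F r‖) (𝓝[<] 1) atTop ∧
      Tendsto (fun r => F r / ((‖F r‖ : ℝ) : ℂ)) (𝓝[<] 1) (𝓝 1)) ∧
    (t = ⊥ → Tendsto (fun r => ‖F r‖) (𝓝[<] 1) atTop ∧
      Tendsto (fun r => F r / ((‖F r‖ : ℝ) : ℂ)) (𝓝[<] 1) (𝓝 (-1))) := by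
  have h2' : Tendsto (fun r => (F r).im) (𝓝[<] 1) (𝓝 0) := by
    have : Tendsto (fun r => ((F r).im : EReal)) (𝓝[<] 1) (𝓝 ((0 : ℝ) : EReal)) := by simpa using h2
    exact EReal.tendsto_coe.mp this
  refine ⟨fun x hx => ?_, fun ht => ?_, fun ht => ?_⟩
  · rw [hx] at h1
    have h3 := EReal.tendsto_coe.mp h1
    have h4 : Tendsto (fun r => (((F r).re : ℝ) : ℂ) + (((F r).im : ℝ) : ℂ) * Complex.I) (𝓝[<] 1)
        (𝓝 ((x : ℂ) + ((0 : ℝ) : ℂ) * Complex.I)) :=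
      ((Complex.continuous_ofReal.tendsto _).comp h3).add
        (((Complex.continuous_ofReal.tendsto _).comp h2').mul_const _)
    have h5 : (x : ℂ) + ((0 : ℝ) : ℂ) * Complex.I = x := by simp
    rw [h5] at h4
    refine h4.congr fun r => ?_
    exact Complex.re_add_im _
  · rw [ht, EReal.tendsto_coe_nhds_top_iff] at h1
    exact top_reading h1 h2'
  · rw [ht, EReal.tendsto_coe_nhds_bot_iff] at h1
    have h3 : Tendsto (fun r => (-F r).re) (𝓝[<] 1) atTop :=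
      (tendsto_neg_atBot_atTop.comp h1).congr fun r => by simp
    have h4 : Tendsto (fun r => (-F r).im) (𝓝[<] 1) (𝓝 0) := by
      have := h2'.neg
      rw [neg_zero] at this
      exact this.congr fun r => by simp
    obtain ⟨h5, h6⟩ := top_reading h3 h4
    refine ⟨by simpa using h5, ?_⟩
    have := h6.neg
    refine this.congr fun r => ?_
    rw [norm_neg, neg_div, neg_neg]

end Pool.Agent.H49.RL
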