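import Mathlib
import Pool.Agent.H24.Final

/-!
Radial limits with prescribed real and imaginary parts (in the extended reals) and coefficients tending
to zero.  Same construction as in Pool.Agent.H24.Final, with complex targets.
-/

set_option autoImplicit false
open Filter Topology Polynomial MeasureTheory AddCircle

namespace Pool.Agent.H49.RL
open Pool.Agent.H24

lemma exists_step (γ : C(TT, ℂ)) (S : ℂ[X]) (k : ℕ) :
    ∃ (ρ : ℝ) (P : ℂ[X]) (F : Set TT), 1 - (1/2) ^ k ≤ ρ ∧ ρ < 1 ∧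
      (∀ x : TT, ∀ r : ℝ, ρ ≤ r → r ≤ 1 →
        ‖S.eval ((r : ℂ) * ee x) - S.eval (ee x)‖ ≤ (1/2) ^ k) ∧
      (∀ n ≤ k, P.coeff n = 0) ∧ (∀ n ≤ S.natDegree, P.coeff n = 0) ∧ (∀ n, ‖P.coeff n‖ ≤ (1/2) ^ k) ∧
      (∀ z : ℂ, ‖z‖ ≤ ρ → ‖P.eval z‖ ≤ (1/2) ^ k) ∧ mu F ≤ ENNReal.ofReal ((1/2) ^ k) ∧
      (∀ x ∉ F, (∀ r : ℝ, 0 ≤ r → r ≤ 1 → ∃ φ : ℝ, 0 ≤ φ ∧ φ ≤ 1 ∧
          ‖P.eval ((r : ℂ) * ee x) - (φ : ℂ) * (γ x - S.eval (ee x))‖ ≤ (1/2) ^ k) ∧
        ‖P.eval (ee x) - (γ x - S.eval (ee x))‖ ≤ (1/2) ^ k) := by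
  set q : ℝ := (1/2) ^ k with hq
  have hq0 : 0 < q := by positivity
  have hq1 : q ≤ 1 := pow_le_one₀ (by norm_num) (by norm_num)
  set C := lipc S 0 with hC
  have hC0 : 0 ≤ C := lipc_nonneg S 0
  let h : C(TT, ℂ) := ⟨fun x => γ x - S.eval (ee x),
    γ.continuous.sub (S.continuous.comp continuous_ee)⟩
  have hρ1 : 1 - q / (C + 1) < 1 := by
    have : 0 < q / (C + 1) := by positivity
    linarith
  have hqC : q / (C + 1) ≤ q := by
    rw [div_le_iff₀ (by positivity)]; nlinarith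
  have hρ0 : 0 ≤ 1 - q / (C + 1) := by linarith
  obtain ⟨P, F, h1, h2, h3, -, h5, h6⟩ := exists_block h hq0 (max (k + 1) (S.natDegree + 1)) hρ0 hρ1
  refine ⟨1 - q / (C + 1), P, F, by linarith, hρ1, fun x r hr hr1 => ?_, fun n hn => h1 n ?_,
    fun n hn => h1 n ?_, fun n => h2 n, h3, h5, h6⟩
  · have h7 := radial_diff_le S 0 (hρ0.trans hr) hr1 (norm_ee x)
    rw [pow_zero, one_mul, ← hC] at h7
    refine h7.trans ?_
    calc C * (1 - r) ≤ C * (q / (C + 1)) := mul_le_mul_of_nonneg_left (by linarith) hC0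
      _ ≤ q := by rw [← mul_div_assoc, div_le_iff₀ (by positivity)]; nlinarith
  · exact lt_of_lt_of_le (Nat.lt_succ_of_le hn) (le_max_left _ _)
  · exact lt_of_lt_of_le (Nat.lt_succ_of_le hn) (le_max_right _ _)

/-- Near the boundary `f` is close to the segments `[γ k, γ (k+1)]`. -/
def RadC (f : ℝ → ℂ) (γ : ℕ → ℂ) : Prop :=
  ∀ ε : ℝ, 0 < ε → ∀ K : ℕ, ∃ r₀ : ℝ, r₀ < 1 ∧ ∀ r : ℝ, r₀ ≤ r → r < 1 →
    ∃ k : ℕ, K ≤ k ∧ ∃ φ : ℝ, 0 ≤ φ ∧ φ ≤ 1 ∧
      ‖f r - ((1 - φ : ℝ) * γ k + (φ : ℝ) * γ (k + 1))‖ ≤ ε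

theorem main_circle (γ : ℕ → C(TT, ℂ)) :
    ∃ a : ℕ → ℂ, (∀ n, ‖a n‖ ≤ 1) ∧ Tendsto a atTop (𝓝 0) ∧ ∀ᵐ x ∂mu,
      RadC (fun r : ℝ => ∑' n : ℕ, a n * ((r : ℂ) * ee x) ^ n) (fun k => γ k x) := by
  choose ρ P F hρlow hρ1 hS hPk hPS hPc hPρ hF hx using fun (S : ℂ[X]) (k : ℕ) => exists_step (γ k) S k
  let S : ℕ → ℂ[X] := fun k => Nat.rec 0 (fun k S => S + P S k) k
  have hS0 : S 0 = 0 := rfl
  have hSs : ∀ k, S (k+1) = S k + P (S k) k := fun k => rfl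
  have hcoef : ∀ n k, n ≤ k → (S k).coeff n = (S n).coeff n := by
    intro n k hnk
    induction k, hnk using Nat.le_induction with
    | base => rfl
    | succ k hk ih => rw [hSs, coeff_add, hPk _ _ n hk, add_zero, ih]
  have hbd' : ∀ m k, m ≤ k → ∀ n, (S m).natDegree < n → ‖(S k).coeff n‖ ≤ (1/2) ^ m := by
    intro m k hmk
    induction k, hmk using Nat.le_induction with
    | base =>
      intro n hn
      rw [coeff_eq_zero_of_natDegree_lt hn, norm_zero]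
      positivity
    | succ k hk ih =>
      intro n hn
      rw [hSs, coeff_add]
      rcases le_or_gt n (S k).natDegree with h | h
      · rw [hPS _ _ n h, add_zero]; exact ih n hn
      · rw [coeff_eq_zero_of_natDegree_lt h, zero_add]
        exact (hPc _ _ n).trans (pow_le_pow_of_le_one (by norm_num) (by norm_num) hk)
  have hbd : ∀ k n, ‖(S k).coeff n‖ ≤ 1 := by
    intro k
    induction k with
    | zero => intro n; simp [hS0]
    | succ k ih =>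
      intro n
      rw [hSs, coeff_add]
      rcases le_or_gt n (S k).natDegree with h | h
      · rw [hPS _ _ n h, add_zero]; exact ih n
      · rw [coeff_eq_zero_of_natDegree_lt h, zero_add]
        exact (hPc _ _ n).trans (pow_le_one₀ (by norm_num) (by norm_num))
  let a : ℕ → ℂ := fun n => (S n).coeff n
  have ha : ∀ n, ‖a n‖ ≤ 1 := fun n => hbd n n
  have ha0 : Tendsto a atTop (𝓝 0) := by
    rw [Metric.tendsto_atTop]
    intro ε hε
    obtain ⟨m, hm⟩ := exists_pow_lt_of_lt_one hε (show ((1:ℝ)/2) < 1 by norm_num)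
    refine ⟨max m ((S m).natDegree + 1), fun n hn => ?_⟩
    rw [dist_zero_right]
    exact (hbd' m n ((le_max_left _ _).trans hn) n
      (lt_of_lt_of_le (Nat.lt_succ_self _) ((le_max_right _ _).trans hn))).trans_lt hm
  have hlim : ∀ z : ℂ, ‖z‖ < 1 → Tendsto (fun k => (S k).eval z) atTop (𝓝 (∑' n, a n * z ^ n)) := by
    intro z hz
    have h1 : ∀ k, (S k).eval z = ∑' n, (S k).coeff n * z ^ n := by
      intro k
      rw [eval_eq_sum, Polynomial.sum]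
      rw [tsum_eq_sum]
      intro n hn
      rw [notMem_support_iff.mp hn, zero_mul]
    simp_rw [h1]
    apply tendsto_tsum_of_dominated_convergence (bound := fun n => ‖z‖ ^ n)
    · exact summable_geometric_of_lt_one (norm_nonneg _) hz
    · intro n
      apply tendsto_const_nhds.congr'
      filter_upwards [eventually_ge_atTop n] with k hk
      rw [hcoef n k hk]
    · refine Eventually.of_forall fun k n => ?_
      rw [norm_mul, norm_pow]
      exact mul_le_of_le_one_left (by positivity) (hbd k n)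
  have htail : ∀ z : ℂ, ‖z‖ < 1 → ∀ k, (∀ j, k < j → ‖z‖ ≤ ρ (S j) j) →
      ‖(∑' n, a n * z ^ n) - (S (k+1)).eval z‖ ≤ (1/2) ^ k := by
    intro z hz k hk
    have h1 : ∀ m, k + 1 ≤ m → ‖(S m).eval z - (S (k+1)).eval z‖ ≤ (1/2) ^ k - 2 * (1/2) ^ m := by
      intro m hm
      induction m, hm using Nat.le_induction with
      | base =>
        rw [sub_self, norm_zero, pow_succ]
        linarith
      | succ m hm ih =>
        rw [hSs, eval_add]
        have h2 := hPρ (S m) m z (hk m (by omega))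
        have h3 := norm_add_le ((S m).eval z - (S (k+1)).eval z) ((P (S m) m).eval z)
        have h4 : (S m).eval z + (P (S m) m).eval z - (S (k+1)).eval z =
          (S m).eval z - (S (k+1)).eval z + (P (S m) m).eval z := by ring
        rw [h4, pow_succ]
        linarith
    have h2 := (hlim z hz).sub_const ((S (k+1)).eval z)
    refine le_of_tendsto h2.norm ?_
    filter_upwards [eventually_ge_atTop (k+1)] with m hm
    refine (h1 m hm).trans ?_
    have : (0:ℝ) ≤ 2 * (1/2) ^ m := by positivity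
    linarith
  refine ⟨a, ha, ha0, ?_⟩
  have hsum : ∑' k, mu (F (S k) k) ≠ ⊤ := by
    have h5 : ∑' k : ℕ, ENNReal.ofReal ((1/2) ^ k) ≠ ⊤ := by
      have : Summable (fun k : ℕ => ((1:ℝ)/2) ^ k) :=
        summable_geometric_of_lt_one (by norm_num) (by norm_num)
      rw [← ENNReal.ofReal_tsum_of_nonneg (fun _ => by positivity) this]
      exact ENNReal.ofReal_ne_top
    exact ne_top_of_le_ne_top h5 (ENNReal.tsum_le_tsum fun k => hF _ _)
  filter_upwards [ae_eventually_notMem hsum] with x hxF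
  obtain ⟨K0, hK0⟩ := hxF.exists_forall_of_atTop
  intro ε hε K
  obtain ⟨K1, hK1⟩ := exists_pow_lt_of_lt_one (show (0:ℝ) < ε / 5 by positivity)
    (show ((1:ℝ)/2) < 1 by norm_num)
  set K2 := K + K0 + K1 + 1 with hK2
  refine ⟨max 0 (ρ (S K2) K2), max_lt zero_lt_one (hρ1 _ _), fun r hr hr1 => ?_⟩
  have hr0 : 0 ≤ r := (le_max_left _ _).trans hr
  have hrK : ρ (S K2) K2 ≤ r := (le_max_right _ _).trans hr
  obtain ⟨B, hB⟩ := exists_pow_lt_of_lt_one (show (0:ℝ) < 1 - r by linarith)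
    (show ((1:ℝ)/2) < 1 by norm_num)
  have hBj : ∀ j, B ≤ j → r < ρ (S j) j := by
    intro j hj
    have h1 := hρlow (S j) j
    have h2 : ((1:ℝ)/2) ^ j ≤ (1/2) ^ B := pow_le_pow_of_le_one (by norm_num) (by norm_num) hj
    linarith
  classical
  set k := Nat.findGreatest (fun k => ρ (S k) k ≤ r) (max K2 B) with hk
  have hk1 : ρ (S k) k ≤ r := Nat.findGreatest_spec (P := fun k => ρ (S k) k ≤ r)
    (le_max_left K2 B) hrK
  have hk2 : K2 ≤ k := Nat.le_findGreatest (le_max_left _ _) hrK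
  have hk3 : ∀ j, k < j → r ≤ ρ (S j) j := by
    intro j hj
    rcases le_or_gt j (max K2 B) with h | h
    · have := Nat.findGreatest_is_greatest hj h
      exact (not_le.mp this).le
    · exact (hBj j (by have := le_max_right K2 B; omega)).le
  obtain ⟨k', hk'⟩ : ∃ k', k = k' + 1 := ⟨k - 1, by omega⟩
  have hnr : ‖(r : ℂ) * ee x‖ = r := by
    rw [norm_mul, norm_ee, mul_one, Complex.norm_real, Real.norm_of_nonneg hr0]
  have e1 := htail ((r : ℂ) * ee x) (by rw [hnr]; exact hr1) k (fun j hj => by rw [hnr]; exact hk3 j hj)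
  have e2 := hS (S k) k x r hk1 hr1.le
  obtain ⟨φ, hφ0, hφ1, e3⟩ := (hx (S k) k x (hK0 k (by omega))).1 r hr0 hr1.le
  have e4 := (hx (S k') k' x (hK0 k' (by omega))).2
  have e5 : (S k).eval (ee x) = (S k').eval (ee x) + (P (S k') k').eval (ee x) := by
    rw [hk', hSs, eval_add]
  have e6 : ‖(S k).eval (ee x) - γ k' x‖ ≤ (1/2) ^ k' := by
    have : (S k).eval (ee x) - γ k' x = (P (S k') k').eval (ee x) - (γ k' x - (S k').eval (ee x)) := by
      rw [e5]; ring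
    rw [this]; exact e4
  refine ⟨k', by omega, φ, hφ0, hφ1, ?_⟩
  have hk'' : (1/2 : ℝ) ^ k' = 2 * (1/2) ^ k := by rw [hk', pow_succ]; ring
  rw [hk''] at e6
  have e7 : (∑' n, a n * ((r : ℂ) * ee x) ^ n) -
      (((1 - φ : ℝ) : ℂ) * γ k' x + ((φ : ℝ) : ℂ) * γ (k' + 1) x) =
      ((∑' n, a n * ((r : ℂ) * ee x) ^ n) - (S (k+1)).eval ((r : ℂ) * ee x)) +
      ((S k).eval ((r : ℂ) * ee x) - (S k).eval (ee x)) +
      ((P (S k) k).eval ((r : ℂ) * ee x) - (φ : ℂ) * (γ k x - (S k).eval (ee x))) +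
      (((1 - φ : ℝ)) : ℂ) * ((S k).eval (ee x) - γ k' x) := by
    rw [hSs, eval_add, ← hk']
    push_cast
    ring
  have e8 : ‖(((1 - φ : ℝ)) : ℂ) * ((S k).eval (ee x) - γ k' x)‖ ≤ 1 * (2 * (1/2) ^ k) := by
    rw [norm_mul]
    apply mul_le_mul _ e6 (norm_nonneg _) zero_le_one
    rw [Complex.norm_real, Real.norm_of_nonneg (by linarith)]
    linarith
  have e9 : ((1:ℝ)/2) ^ k ≤ (1/2) ^ K1 := pow_le_pow_of_le_one (by norm_num) (by norm_num) (by omega)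
  show ‖(∑' n, a n * ((r : ℂ) * ee x) ^ n) -
    (((1 - φ : ℝ) : ℂ) * γ k' x + ((φ : ℝ) : ℂ) * γ (k' + 1) x)‖ ≤ ε
  rw [e7]
  refine (norm_add_le _ _).trans ?_
  have e10 := norm_add_le (((∑' n, a n * ((r : ℂ) * ee x) ^ n) - (S (k+1)).eval ((r : ℂ) * ee x)) +
      ((S k).eval ((r : ℂ) * ee x) - (S k).eval (ee x)))
      ((P (S k) k).eval ((r : ℂ) * ee x) - (φ : ℂ) * (γ k x - (S k).eval (ee x)))
  have e11 := norm_add_le ((∑' n, a n * ((r : ℂ) * ee x) ^ n) - (S (k+1)).eval ((r : ℂ) * ee x))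
      ((S k).eval ((r : ℂ) * ee x) - (S k).eval (ee x))
  linarith

/-- A real function which is close to the segments `[u k, u (k+1)]` has the limit of `u`. -/
lemma tendsto_seg {h : ℝ → ℝ} {u : ℕ → ℝ} {g : EReal} (hu : ConvTo u g)
    (H : ∀ ε : ℝ, 0 < ε → ∀ K : ℕ, ∃ r₀ : ℝ, r₀ < 1 ∧ ∀ r : ℝ, r₀ ≤ r → r < 1 →
      ∃ k : ℕ, K ≤ k ∧ ∃ φ : ℝ, 0 ≤ φ ∧ φ ≤ 1 ∧ |h r - ((1 - φ) * u k + φ * u (k + 1))| ≤ ε) :
    Tendsto (fun r => (h r : EReal)) (𝓝[<] 1) (𝓝 g) := by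
  induction g using EReal.rec with
  | bot =>
    rw [EReal.tendsto_coe_nhds_bot_iff, tendsto_atBot]
    intro B
    obtain ⟨K, hK⟩ := ((hu.2.2 rfl).eventually_le_atBot (B - 1)).exists_forall_of_atTop
    obtain ⟨r₀, hr₀, hr⟩ := H 1 one_pos K
    filter_upwards [Ico_mem_nhdsLT hr₀] with r hrm
    obtain ⟨k, hk, φ, hφ0, hφ1, hφ⟩ := hr r hrm.1 hrm.2
    have h1 := hK k hk
    have h2 := hK (k+1) (by omega)
    have h3 := (abs_le.mp hφ).2
    nlinarith
  | top =>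
    rw [EReal.tendsto_coe_nhds_top_iff, tendsto_atTop]
    intro B
    obtain ⟨K, hK⟩ := ((hu.2.1 rfl).eventually_ge_atTop (B + 1)).exists_forall_of_atTop
    obtain ⟨r₀, hr₀, hr⟩ := H 1 one_pos K
    filter_upwards [Ico_mem_nhdsLT hr₀] with r hrm
    obtain ⟨k, hk, φ, hφ0, hφ1, hφ⟩ := hr r hrm.1 hrm.2
    have h1 := hK k hk
    have h2 := hK (k+1) (by omega)
    have h3 := (abs_le.mp hφ).1
    nlinarith
  | coe y =>
    rw [EReal.tendsto_coe, Metric.tendsto_nhds]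
    intro ε hε
    have h0 := hu.1 y rfl
    rw [Metric.tendsto_atTop] at h0
    obtain ⟨K, hK⟩ := h0 (ε / 3) (by positivity)
    obtain ⟨r₀, hr₀, hr⟩ := H (ε / 3) (by positivity) K
    filter_upwards [Ico_mem_nhdsLT hr₀] with r hrm
    obtain ⟨k, hk, φ, hφ0, hφ1, hφ⟩ := hr r hrm.1 hrm.2
    have h1 := hK k hk
    have h2 := hK (k+1) (by omega)
    rw [Real.dist_eq, abs_lt] at h1 h2
    have h3 := abs_le.mp hφ
    rw [Real.dist_eq, abs_lt]
    constructor <;> nlinarith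

theorem main_pq (p q : ℂ → EReal) (hp : Measurable fun x : TT => p (ee x))
    (hq : Measurable fun x : TT => q (ee x)) :
    ∃ a : ℕ → ℂ, (∀ n, ‖a n‖ ≤ 1) ∧ Tendsto a atTop (𝓝 0) ∧ ∀ᵐ x ∂mu,
      Tendsto (fun r : ℝ => ((∑' n : ℕ, a n * ((r : ℂ) * ee x) ^ n).re : EReal)) (𝓝[<] 1) (𝓝 (p (ee x))) ∧
      Tendsto (fun r : ℝ => ((∑' n : ℕ, a n * ((r : ℂ) * ee x) ^ n).im : EReal)) (𝓝[<] 1) (𝓝 (q (ee x))) := by
  obtain ⟨γ, hγ⟩ := exists_approx _ hp
  obtain ⟨δ, hδ⟩ := exists_approx _ hq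
  let c : ℕ → C(TT, ℂ) := fun k => ⟨fun x => (γ k x : ℂ) + (δ k x : ℂ) * Complex.I,
    (Complex.continuous_ofReal.comp (γ k).continuous).add
      ((Complex.continuous_ofReal.comp (δ k).continuous).mul continuous_const)⟩
  obtain ⟨a, ha, ha0, h⟩ := main_circle c
  refine ⟨a, ha, ha0, ?_⟩
  filter_upwards [h, hγ, hδ] with x hx h1 h2
  have hc : ∀ k, c k x = (γ k x : ℂ) + (δ k x : ℂ) * Complex.I := fun k => rfl
  constructor
  · refine tendsto_seg h1 fun ε hε K => ?_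
    obtain ⟨r₀, hr₀, hr⟩ := hx ε hε K
    refine ⟨r₀, hr₀, fun r h3 h4 => ?_⟩
    obtain ⟨k, hk, φ, hφ0, hφ1, hφ⟩ := hr r h3 h4
    refine ⟨k, hk, φ, hφ0, hφ1, ((Complex.abs_re_le_norm _).trans hφ).trans' (le_of_eq ?_)⟩
    simp only [hc]
    simp
  · refine tendsto_seg h2 fun ε hε K => ?_
    obtain ⟨r₀, hr₀, hr⟩ := hx ε hε K
    refine ⟨r₀, hr₀, fun r h3 h4 => ?_⟩
    obtain ⟨k, hk, φ, hφ0, hφ1, hφ⟩ := hr r h3 h4
    refine ⟨k, hk, φ, hφ0, hφ1, ((Complex.abs_im_le_norm _).trans hφ).trans' (le_of_eq ?_)⟩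
    simp only [hc]
    simp

end Pool.Agent.H49.RL
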